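import Pool.Agent.Helper230.EGlueE

/-!
# EOL forms generate only linear s-grammatical families
-/

namespace Pool.Agent.Results.MP_123b7c_lc.LinearOnly

open Pool.Agent.Helper230.EForms

/-- If the family of an EOL form `F` equals the s-grammatical family of a context-free grammar
form `G` (languages being identified if they differ at most by the empty word), then the
s-grammatical family of `G` is contained in the family of linear languages. -/
theorem result : ∀ G : Gram, IsCF G → (∃ F, IsEOL F ∧ FamEq (eolFamily F) (sFamily G)) →
    FamLE (sFamily G) LIN := by
  rintro G hG ⟨F, hF, h⟩ L hL
  exact ⟨L, main hG hF h hL, rfl⟩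

end Pool.Agent.Results.MP_123b7c_lc.LinearOnly
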